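import Pool.Agent.L0h50.UT.StmT
import Pool.Agent.N874.TW.Gen

/-!
# Complete splitting gives an embedding in the completion (part EMB of project UT)
-/

set_option autoImplicit false
set_option linter.all false

open IsDedekindDomain WithZero Filter Topology MonoidWithZeroHom NumberField

namespace Pool.Agent.L0h51.UT

open Pool.Agent.L0h50.UT (Unr Dns)

theorem basis0 {K : Type} [Field K] [NumberField K] (v : HeightOneSpectrum (𝓞 K)) :
    (𝓝 (0 : WithVal (v.valuation K))).HasBasis (fun _ : ℕ => True)
      (fun n => {x | Valued.v x < exp (-(n : ℤ))}) := by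
  refine ⟨fun s => ?_⟩
  rw [Valued.mem_nhds_zero]
  constructor
  · rintro ⟨γ, hγ⟩
    have hg : ValueGroup₀.embedding γ.1 ≠ 0 := by
      rw [Ne, map_eq_zero]
      exact γ.ne_zero
    obtain ⟨n, hn, -⟩ := exists_exp_neg_natCast_lt_and_lt hg hg
    refine ⟨n, trivial, fun x hx => hγ ?_⟩
    show (Valued.v (R := WithVal (v.valuation K))).restrict x < γ
    rw [Valuation.restrict_lt_iff_lt_embedding]
    exact lt_trans hx hn
  · rintro ⟨n, -, h⟩
    obtain ⟨π, hπ⟩ := v.valuation_exists_uniformizer K
    have hπ0 : π ≠ 0 := by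
      rintro rfl
      rw [map_zero] at hπ
      exact exp_ne_zero hπ.symm
    have hne : (Valued.v (R := WithVal (v.valuation K))).restrict
        (WithVal.toVal (v.valuation K) (π ^ n)) ≠ 0 := by
      rw [Valuation.ne_zero_iff]
      intro h
      exact pow_ne_zero n hπ0 ((WithVal.toVal_eq_zero _ _).1 h)
    refine ⟨Units.mk0 _ hne, fun x hx => h ?_⟩
    have hx' : Valued.v x < Valued.v (WithVal.toVal (v.valuation K) (π ^ n)) :=
      (Valuation.restrict_lt_iff _).1 hx
    refine lt_of_lt_of_eq hx' ?_
    change v.valuation K (π ^ n) = _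
    rw [map_pow, hπ, ← exp_nsmul]
    congr 1
    simp

section

variable {F M : Type} [Field F] [NumberField F] [Field M] [NumberField M] [Algebra F M]
  (v : HeightOneSpectrum (𝓞 F)) (w : HeightOneSpectrum (𝓞 M))

/-- The inclusion of `F` in `M`. -/
noncomputable def inc : WithVal (v.valuation F) →+* WithVal (w.valuation M) :=
  (WithVal.equiv (w.valuation M)).symm.toRingHom.comp
    ((algebraMap F M).comp (WithVal.equiv (v.valuation F)).toRingHom)

variable {v w}

theorem inc_val (hv : Unr v w) (x : WithVal (v.valuation F)) : Valued.v (inc v w x) = Valued.v x :=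
  hv x.ofVal

theorem inc_ind (hv : Unr v w) : IsUniformInducing (inc v w) := by
  refine ⟨?_⟩
  have e : comap (inc v w) (𝓝 0) = 𝓝 0 := by
    refine ((basis0 w).comap (inc v w)).eq_of_same_basis ?_
    convert basis0 v using 2 with n
    ext x
    change Valued.v (inc v w x) < _ ↔ Valued.v x < _
    rw [inc_val hv]
  rw [uniformity_eq_comap_nhds_zero, uniformity_eq_comap_nhds_zero, comap_comap, ← e, comap_comap]
  congr 1
  ext p
  simp

theorem inc_dense (hd : Dns F w) : DenseRange (inc v w) := by
  intro y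
  rw [mem_closure_iff_nhds]
  intro t ht
  have h1 : (fun z => y + z) ⁻¹' t ∈ 𝓝 (0 : WithVal (w.valuation M)) := by
    have h2 : ContinuousAt (fun z : WithVal (w.valuation M) => y + z) 0 :=
      (continuous_const.add continuous_id).continuousAt
    apply h2
    simp only [add_zero]
    exact ht
  obtain ⟨n, -, hn⟩ := (basis0 w).mem_iff.1 h1
  obtain ⟨s₀, hs₀⟩ := Pool.Agent.N874.TW.dens2 (K := F) (𝓞 M) w hd y.ofVal
    (ε := exp (-(n : ℤ))) exp_ne_zero
  refine ⟨inc v w (WithVal.toVal _ s₀), ?_, ⟨_, rfl⟩⟩
  have h3 : inc v w (WithVal.toVal _ s₀) - y ∈ (fun z => y + z) ⁻¹' t := by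
    apply hn
    change w.valuation M (algebraMap F M s₀ - y.ofVal) < _
    rw [← Valuation.map_neg, neg_sub]
    exact hs₀
  have h4 : y + (inc v w (WithVal.toVal _ s₀) - y) ∈ t := h3
  rwa [add_sub_cancel] at h4

end

theorem emb : Pool.Agent.L0h50.UT.S_EMB := by
  intro F M _ _ _ _ _ v w hv hd
  have hf : UniformContinuous (UniformSpace.Completion.coeRingHom
      (α := WithVal (v.valuation F))) := UniformSpace.Completion.uniformContinuous_coe _
  let ψ : WithVal (w.valuation M) →+* (v.valuation F).Completion :=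
    IsDenseInducing.extendRingHom (inc_ind hv) (inc_dense hd) hf
  let χ : M →+* v.adicCompletion F := (HeightOneSpectrum.adicCompletion.equiv F v).symm.toRingHom.comp
    (ψ.comp (WithVal.equiv (w.valuation M)).symm.toRingHom)
  refine ⟨AlgHom.mk χ fun a => ?_⟩
  have h1 : ψ (inc v w (WithVal.toVal _ a)) =
      UniformSpace.Completion.coeRingHom (α := WithVal (v.valuation F)) (WithVal.toVal _ a) :=
    IsDenseInducing.extend_eq ((inc_ind hv).isDenseInducing (inc_dense hd)) hf.continuous _
  change (HeightOneSpectrum.adicCompletion.equiv F v).symm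
    (ψ (inc v w (WithVal.toVal _ a))) = _
  rw [h1]
  rfl

end Pool.Agent.L0h51.UT
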