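import Pool.Agent.L0h51.TM.SelM
import Pool.Agent.L0h50.UT.Stm

/-!
# The base case of the descent along `M / F`, with conditions on the ramification
-/

set_option autoImplicit false
set_option linter.all false

open Polynomial IsDedekindDomain NumberField WithZero
open scoped Classical IntermediateField

namespace Pool.Agent.L0h51.UT

open Pool.Agent.N874.PP (Ev Sq1 U0)
open Pool.Agent.N783.PQ (LocIm)
open Pool.Agent.N874.JM (LocF)
open Pool.Agent.N874.PM (Lies)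
open Pool.Agent.N783.PF
open Pool.Agent.N922.PQ (ev_down sq_down)
open Pool.Agent.N78.PF (LOC1 LOC2 fF_scale eq_of_ov val_one two_cast val_theta val_der rd_eq sp_le
  map_locF)
open Pool.Agent.L0h51.TM
open Pool.Agent.L0h50.UT (Unr Dns Two Adm S_UTOP S_UP)

section

variable {F L M Ω : Type} [Field F] [NumberField F] [Field L] [NumberField L] [Field M]
  [NumberField M] [Field Ω] [NumberField Ω] [Algebra F L] [Algebra F M] [Algebra L Ω]
  [Algebra M Ω] [Algebra F Ω] [IsScalarTower F L Ω] [IsScalarTower F M Ω]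

theorem u0X {g : ℕ} {f r₀ : (𝓞 F)[X]} {θ : L} (hg : 1 ≤ g) (hG : IsGen g f θ)
    {w : HeightOneSpectrum (𝓞 F)} {𝔓 : HeightOneSpectrum (𝓞 L)}
    (hL : Lies (M := F) (Ω := L) w 𝔓)
    (h2 : (2 : 𝓞 F) ∉ w.asIdeal) {q D' : ℕ} (hD' : (D' : 𝓞 F) ∉ w.asIdeal)
    {𝔓' : HeightOneSpectrum (𝓞 Ω)} {w' : HeightOneSpectrum (𝓞 M)}
    (hv : ∀ x : L, 𝔓'.valuation Ω (algebraMap L Ω x) = 𝔓.valuation L x)
    (hd : ∀ s : Ω, s ≠ 0 → ∃ s₀ : L, 𝔓'.valuation Ω (s - algebraMap L Ω s₀) < 𝔓'.valuation Ω s)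
    (hw' : Lies (M := M) (Ω := Ω) w' 𝔓')
    (hw₀ : ∀ x : F, w'.valuation M (algebraMap F M x) = w.valuation F x)
    (hdM : ∀ s : M, s ≠ 0 → ∃ s₀ : F, w'.valuation M (s - algebraMap F M s₀) < w'.valuation M s)
    (hrm : r₀.Monic) (hrd : r₀.natDegree = 2 * g) (hri : Irreducible (rd w.asIdeal r₀))
    (hcg : Cg w.asIdeal f (X * r₀)) (hθ : 𝔓.valuation L θ = 1)
    (hvq : 𝔓.valuation L (q : L) = WithZero.exp (-1 : ℤ)) (s1 : Sq1 𝔓 (-1 : L))
    (s2 : Sq1 𝔓 ((D' : ℕ) : L)) (h : F[X]) (hne : aeval (((q * D' : ℕ) : L) * θ) h ≠ 0)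
    (hC : CC M ((fF (f.scaleRoots (((q * D' : ℕ) : ℕ) : 𝓞 F))).map (algebraMap F M))
      (((q * D' : ℕ) : Ω) * algebraMap L Ω θ)
      (algebraMap L Ω (aeval (((q * D' : ℕ) : L) * θ) h))) :
    U0 𝔓 ((q : L) * θ) (aeval (((q * D' : ℕ) : L) * θ) h) := by
  haveI : Finite (𝓞 M ⧸ w'.asIdeal) := Ideal.finiteQuotientOfFreeOfNeBot _ w'.ne_bot
  haveI : Finite (𝓞 Ω ⧸ 𝔓'.asIdeal) := Ideal.finiteQuotientOfFreeOfNeBot _ 𝔓'.ne_bot
  have et : (((q * D' : ℕ) : Ω)) * algebraMap L Ω θ = algebraMap L Ω (((q * D' : ℕ) : L) * θ) := by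
    rw [map_mul, map_natCast]
  have eH : aeval ((((q * D' : ℕ) : Ω)) * algebraMap L Ω θ) (h.map (algebraMap F M)) =
      algebraMap L Ω (aeval (((q * D' : ℕ) : L) * θ) h) := by
    rw [et, aeval_up]
  have hloc := (hC _ eH).1 w'
  rw [fD_eq hG.mon, Nat.cast_mul] at hloc
  have hmF : (fF f).Monic := hG.mon.map _
  have e2 : (2 : M) = ((2 : ℕ) : M) := by norm_num
  have e5 : algebraMap M Ω ((q : M) * (D' : M)) * algebraMap L Ω θ =
      (((q * D' : ℕ) : Ω)) * algebraMap L Ω θ := by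
    rw [map_mul, map_natCast, map_natCast, Nat.cast_mul]
  have h5 := LOC2 M Ω (𝓞 M) (𝓞 Ω) w' 𝔓' hw'
    (by rw [e2]; exact nat_unit hL hv hw' 2 (by exact_mod_cast h2)) g
    ((fF f).map (algebraMap F M)) (h.map (algebraMap F M)) (r₀.map (algebraMap (𝓞 F) (𝓞 M)))
    (q : M) (D' : M) (algebraMap L Ω θ) hg (hmF.map _)
    (by rw [hmF.natDegree_map, hG.mon.natDegree_map, hG.deg])
    (hrm.map _) (by rw [hrm.natDegree_map, hrd]) (irr_up hw₀ hdM hri)
    (fun j => by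
      have e : ((fF f).map (algebraMap F M)).coeff j -
          algebraMap (𝓞 M) M ((X * r₀.map (algebraMap (𝓞 F) (𝓞 M))).coeff j) =
          algebraMap F M (algebraMap (𝓞 F) F (f.coeff j - (X * r₀).coeff j)) := by
        have e0 : (X * r₀.map (algebraMap (𝓞 F) (𝓞 M)) : (𝓞 M)[X]) =
            (X * r₀).map (algebraMap (𝓞 F) (𝓞 M)) := by
          rw [Polynomial.map_mul, map_X]
        rw [e0, coeff_map, coeff_map, coeff_map, map_sub, map_sub,
          ← IsScalarTower.algebraMap_apply (𝓞 F) (𝓞 M) M, ← IsScalarTower.algebraMap_apply (𝓞 F) F M,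
          ← IsScalarTower.algebraMap_apply (𝓞 F) F M]
      rw [e, hw₀]
      exact (HeightOneSpectrum.valuation_lt_one_iff_mem (K := F) w _).2 (hcg j))
    (by rw [aeval_up, hG.root, map_zero])
    (by rw [hv]; exact hθ)
    (by rw [map_natCast, ← map_natCast (algebraMap L Ω), hv]; exact hvq)
    (nat_unit hL hv hw' D' hD')
    (by
      have := sq_up hv s1
      simpa using this)
    (by
      have := sq_up hv s2
      simpa using this)
    hloc
  rw [e5, eH] at h5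
  have h6 := h5 (by rw [Ne, map_eq_zero]; exact hne)
  have e7 : algebraMap M Ω (q : M) * algebraMap L Ω θ = algebraMap L Ω ((q : L) * θ) := by
    rw [map_mul, map_natCast, map_natCast]
  rw [e7] at h6
  exact u0_down hv hd h6

/-- The data of the twist. -/
structure DatX (g W : ℕ) (f f₁ : (𝓞 F)[X]) (θ : L) (S J : Finset ℕ) (𝔮 : ℕ → Ideal (𝓞 F))
    (r P : ℕ → (𝓞 F)[X]) : Prop where
  pos : 1 ≤ g
  isGen : IsGen g f θ
  sqF : SqF g f
  good : GoodF g W f₁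
  goodS : GoodS g W S 𝔮 r P
  cg1 : Cg (sp F W) f f₁
  cgq : ∀ q ∈ S, Cg (sp F q) f (P q)
  sub : J ⊆ S

theorem ov_of {w : HeightOneSpectrum (𝓞 F)} {𝔓 : HeightOneSpectrum (𝓞 L)}
    {𝔓' : HeightOneSpectrum (𝓞 Ω)} {w' : HeightOneSpectrum (𝓞 M)}
    (w1 : Ov w.asIdeal 𝔓)
    (hv : ∀ x : L, 𝔓'.valuation Ω (algebraMap L Ω x) = 𝔓.valuation L x)
    (hw' : Lies (M := M) (Ω := Ω) w' 𝔓') : Ov w.asIdeal w' := by
  intro a ha
  by_contra hn
  have h1 : w'.valuation M (algebraMap (𝓞 M) M (algebraMap (𝓞 F) (𝓞 M) a)) = 1 := val_one hn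
  have h2 := unit_up hw' h1
  have e : algebraMap M Ω (algebraMap (𝓞 M) M (algebraMap (𝓞 F) (𝓞 M) a)) =
      algebraMap L Ω (algebraMap (𝓞 L) L (algebraMap (𝓞 F) (𝓞 L) a)) := by
    rw [← IsScalarTower.algebraMap_apply (𝓞 F) (𝓞 M) M, ← IsScalarTower.algebraMap_apply (𝓞 F) (𝓞 L) L,
      IsScalarTower.algebraMap_apply (𝓞 F) F M, IsScalarTower.algebraMap_apply (𝓞 F) F L, alg_comm (L := L)]
  rw [e, hv] at h2
  have h3 : 𝔓.valuation L (algebraMap (𝓞 L) L (algebraMap (𝓞 F) (𝓞 L) a)) < 1 :=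
    (HeightOneSpectrum.valuation_lt_one_iff_mem (K := L) 𝔓 _).2 (w1 a ha)
  rw [h2] at h3
  exact lt_irrefl _ h3

theorem baseX (hUP : S_UP) {g W : ℕ} {f f₁ : (𝓞 F)[X]} {θ : L} {S J : Finset ℕ}
    {𝔮 : ℕ → Ideal (𝓞 F)} {r P : ℕ → (𝓞 F)[X]} (H : DatX g W f f₁ θ S J 𝔮 r P)
    (hA : Adm M f S 𝔮) (htop : M⟮algebraMap L Ω θ⟯ = ⊤) (h : F[X])
    (hne : aeval ((Dp J : L) * θ) h ≠ 0) (hN : IsSquare (Algebra.norm F (aeval ((Dp J : L) * θ) h)))
    (hC : CC M ((fF (f.scaleRoots ((Dp J : ℕ) : 𝓞 F))).map (algebraMap F M))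
      ((Dp J : Ω) * algebraMap L Ω θ) (algebraMap L Ω (aeval ((Dp J : L) * θ) h))) :
    (∀ 𝔓 : HeightOneSpectrum (𝓞 L), (∀ q ∈ J, Ov (𝔮 q) 𝔓 → 𝔓.valuation L θ ≠ 1) →
      Ev 𝔓 (aeval ((Dp J : L) * θ) h)) ∧
    (∀ q ∈ J, ∀ 𝔓 : HeightOneSpectrum (𝓞 L), Ov (𝔮 q) 𝔓 → 𝔓.valuation L θ = 1 →
      U0 𝔓 ((q : L) * θ) (aeval ((Dp J : L) * θ) h)) := by
  have hg := H.pos
  have hG := H.isGen
  have hsq := H.sqF
  have hF := H.good
  have hS := H.goodS
  have hc1 := H.cg1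
  have hcq := H.cgq
  have hJS := H.sub
  have hqp : ∀ q ∈ S, q.Prime := fun q hq => (hS q hq).1
  have hcQ : ∀ q ∈ S, Cg (𝔮 q) f (X * r q) := by
    intro q hq j
    obtain ⟨-, -, -, -, -, -, a2, -, -, -, -, -, -, a3, -⟩ := hS q hq
    have b1 := sp_le (F := F) a2 (hcq q hq j)
    have b2 := a3 j
    have := Ideal.add_mem _ b1 b2
    simpa using this
  have hqne : ∀ q ∈ S, 𝔮 q ≠ ⊥ := by
    intro q hq h0
    obtain ⟨a1, -, -, -, -, -, a2, -⟩ := hS q hq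
    rw [h0, Ideal.mem_bot] at a2
    exact a1.ne_zero (by exact_mod_cast a2)
  have hqpr : ∀ q ∈ S, (𝔮 q).IsPrime := by
    intro q hq
    obtain ⟨-, -, -, -, -, a1, -⟩ := hS q hq
    exact a1
  obtain ⟨D, hD⟩ : ∃ D : ℕ, D = Dp J := ⟨_, rfl⟩
  rw [← hD] at hne hN hC ⊢
  refine ⟨?_, ?_⟩
  · -- even valuations
    intro 𝔓 h𝔓
    obtain ⟨w, w1, w2, w3⟩ := lieF F L 𝔓
    have hL : Lies (M := F) (Ω := L) w 𝔓 := ⟨fun x => (w3 x).1, fun x => (w3 x).2⟩
    by_cases hirr : Irreducible (rd w.asIdeal f)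
    · -- small primes
      exact pin g F L f θ hG hsq w.asIdeal w.isPrime w.ne_bot hirr _ hne hN 𝔓 w1
    · have c2 : (2 : 𝓞 F) ∉ w.asIdeal := by
        intro c2
        apply hirr
        have hW : (W : 𝓞 F) ∈ w.asIdeal := by
          obtain ⟨k, hk⟩ := hF.two
          rw [hk]
          push_cast
          exact Ideal.mul_mem_right _ _ c2
        rw [rd_eq (sp_le hW) hc1]
        exact hF.irr _ w.isPrime c2
      have hun : ∀ w' : HeightOneSpectrum (𝓞 M), Ov w.asIdeal w' → Unr w w' := fun w' o =>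
        (hA.ram w w' o).resolve_right hirr
      by_cases cq : ∃ q ∈ J, (q : 𝓞 F) ∈ w.asIdeal
      · obtain ⟨q, hq, hqw⟩ := cq
        have hqS := hJS hq
        by_cases cw : w.asIdeal = 𝔮 q
        · have o1 : Ov (𝔮 q) 𝔓 := by
            rw [← cw]
            exact w1
          have v1 : 𝔓.valuation L θ < 1 := lt_of_le_of_ne (val_theta hG 𝔓) (h𝔓 q hq o1)
          exact parq g W F L f θ S 𝔮 r P hg hG hsq hS q hqS (hcQ q hqS) _ hne hN 𝔓 o1 v1
        · have e1 := rd_eq (sp_le hqw) (hcq q hqS)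
          obtain ⟨-, -, -, -, -, -, -, -, -, -, -, -, -, -, a1⟩ := hS q hqS
          exact pin g F L f θ hG hsq w.asIdeal w.isPrime w.ne_bot
            (by rw [e1]; exact a1 _ w.isPrime hqw cw) _ hne hN 𝔓 w1
      · -- primes not dividing `2 D`
        have hDw : (D : 𝓞 F) ∉ w.asIdeal := by
          intro hd
          rw [hD, Dp, Nat.cast_prod] at hd
          haveI := w.isPrime
          obtain ⟨q, hq, hqw⟩ := (Ideal.IsPrime.prod_mem_iff).1 hd
          exact cq ⟨q, hq, hqw⟩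
        have key : ∀ (𝔓' : HeightOneSpectrum (𝓞 L)), Ov w.asIdeal 𝔓' →
            Lies (M := F) (Ω := L) w 𝔓' →
            𝔓'.valuation L (aeval θ (derivative (fF f))) = 1 →
            Ev 𝔓' (aeval ((D : L) * θ) h) := by
          intro 𝔓' o' hL' cu
          obtain ⟨𝔔, h𝔔, -⟩ := hUP F L M Ω g f θ hG htop w 𝔓' o' cu hun
          exact ev_unitM hG hL' c2 hDw h𝔔 cu h hne hC
        by_cases cu : 𝔓.valuation L (aeval θ (derivative (fF f))) = 1
        · exact key 𝔓 w1 hL cu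
        · have v1 : 𝔓.valuation L (aeval θ (derivative (fF f))) < 1 :=
            lt_of_le_of_ne (val_der hG 𝔓) cu
          obtain ⟨⟨c, hc⟩, hother⟩ := ram g F L f θ hG hsq w.asIdeal w.isPrime w.ne_bot 𝔓 w1 v1
          refine par g F L f θ hG hsq w.asIdeal w.isPrime w.ne_bot 𝔓 c w1 hc _ hne hN ?_
          intro 𝔓' o' n'
          obtain ⟨w', u1, u2, u3⟩ := lieF F L 𝔓'
          obtain rfl : w = w' := by
            ext1
            exact eq_of_ov w.isPrime w.ne_bot o' u2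
          have hL' : Lies (M := F) (Ω := L) w 𝔓' := ⟨fun x => (u3 x).1, fun x => (u3 x).2⟩
          exact key 𝔓' o' hL' (hother 𝔓' o' n')
  · -- the primes in `J`
    intro q hq 𝔓 o1 v1
    have hqS := hJS hq
    obtain ⟨w, w1, w2, w3⟩ := lieF F L 𝔓
    have hL : Lies (M := F) (Ω := L) w 𝔓 := ⟨fun x => (w3 x).1, fun x => (w3 x).2⟩
    have ew : 𝔮 q = w.asIdeal := eq_of_ov (hqpr q hqS) (hqne q hqS) o1 w2
    obtain ⟨a1, a2, a3, a4, a5, a6, a7, a8, a9, a10, a11, a12, a13, a14, a15⟩ := hS q hqS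
    have cop_mem : ∀ p : ℕ, Nat.Coprime p q → (p : 𝓞 F) ∉ 𝔮 q := by
      intro p hco hpm
      obtain ⟨u, v, huv⟩ := (Nat.isCoprime_iff_coprime.2 hco)
      apply a6.ne_top
      rw [Ideal.eq_top_iff_one]
      have h9 : (1 : 𝓞 F) = (u : 𝓞 F) * (p : 𝓞 F) + (v : 𝓞 F) * (q : 𝓞 F) := by
        have := congrArg (Int.cast (R := 𝓞 F)) huv
        push_cast at this
        exact this.symm
      rw [h9]
      exact Ideal.add_mem _ (Ideal.mul_mem_left _ _ hpm) (Ideal.mul_mem_left _ _ a7)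
    have h2w : (2 : 𝓞 F) ∉ 𝔮 q := by
      have := cop_mem 2 ((Nat.coprime_primes Nat.prime_two a1).2 (by omega))
      exact_mod_cast this
    have a10' : Irreducible (rd w.asIdeal (r q)) := ew ▸ a10
    obtain ⟨D', hD'⟩ : ∃ D' : ℕ, D' = ∏ p ∈ J.erase q, p := ⟨_, rfl⟩
    have hDD : D = q * D' := by
      rw [hD, hD']
      exact (Finset.mul_prod_erase J (fun P => P) hq).symm
    have hD'm : (D' : 𝓞 F) ∉ 𝔮 q := by
      refine cop_mem D' ?_
      rw [hD']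
      refine Nat.Coprime.prod_left fun p hp => ?_
      have hp' := Finset.mem_erase.1 hp
      exact (Nat.coprime_primes (hqp p (hJS hp'.2)) a1).2 hp'.1
    obtain ⟨𝔓₁, 𝔓₂, e1, e2, e3, e4, e5, e6, e7⟩ :=
      exq g W F L f θ S 𝔮 r P hg hG hsq hS q hqS (hcQ q hqS)
    have vq : 𝔓.valuation L (q : L) = WithZero.exp (-1 : ℤ) := by
      rcases e7 𝔓 o1 with rfl | rfl
      · exact e5
      · exact e6
    obtain ⟨c1, -, c3, -⟩ := csq g W F L f θ S 𝔮 r P hg hG hsq hS q hqS (hcQ q hqS) 𝔓 o1 v1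
    have s1 : Sq1 𝔓 (-1 : L) := by
      have := c1 (-1) (by
        intro hm
        apply a6.ne_top
        rw [Ideal.eq_top_iff_one]
        have := Ideal.neg_mem_iff _ |>.2 hm
        simpa using this)
      simpa using this
    have s2 : Sq1 𝔓 ((D' : ℕ) : L) := by
      have := c1 (D' : 𝓞 F) hD'm
      simpa using this
    have hsp := hA.spl q hqS w
    obtain ⟨𝔔, h𝔔, hdΩ⟩ := hUP F L M Ω g f θ hG htop w 𝔓 w1 c3
      (fun w' o => (hsp w' ew.symm o).1)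
    have hdΩ' := hdΩ fun w' o => (hsp w' ew.symm o).2
    obtain ⟨w', hw', -⟩ := Pool.Agent.N415.PQ.lie M Ω (𝓞 M) (𝓞 Ω) 𝔔
    obtain ⟨hu, hdn⟩ := hsp w' ew.symm (ov_of w1 h𝔔 hw')
    rw [hDD] at hne hC ⊢
    refine u0X hg hG hL ?_ ?_ h𝔔 hdΩ' hw' hu hdn a8 a9 a10' ?_ v1 vq s1 s2 h hne hC
    · rw [← ew]
      exact h2w
    · rw [← ew]
      exact hD'm
    · rw [← ew]
      exact hcQ q hqS

end

end Pool.Agent.L0h51.UT
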