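import Pool.Agent.L0h51.TM.SelM
import Pool.Agent.L0h50.UT.Stm
import Pool.Agent.N874.TW.Gen

/-!
# The primes of `Ω = M(θ)` at which `f'(θ)` is a unit (parts UTOP, UP of project UT)

After `N874/TW/Gen.lean`, `N874/TW/Cnd.lean` (helper874).
-/

set_option autoImplicit false
set_option linter.all false

open Polynomial IsDedekindDomain NumberField WithZero
open scoped Classical IntermediateField

namespace Pool.Agent.L0h51.UT

open Pool.Agent.N783.PF
open Pool.Agent.L0h51.TM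
open Pool.Agent.L0h50.UT (Unr Dns S_UTOP S_UP)

theorem utop : S_UTOP := by
  intro M Ω _ _ _ _ _ f θ hmon hroot htop 𝔓 h3
  haveI : FiniteDimensional M Ω := Module.Finite.of_restrictScalars_finite ℚ M Ω
  have t6 : IsIntegralClosure (𝓞 Ω) (𝓞 M) Ω := IsIntegralClosure.tower_top (R := ℤ)
  have hinj : Function.Injective (algebraMap (𝓞 M) (𝓞 Ω)) := FaithfulSMul.algebraMap_injective _ _
  have hp0 : 𝔓.asIdeal.under (𝓞 M) ≠ ⊥ := by
    intro h0
    exact 𝔓.ne_bot (Ideal.eq_bot_of_comap_eq_bot h0)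
  let v : HeightOneSpectrum (𝓞 M) := ⟨𝔓.asIdeal.under (𝓞 M), inferInstance, hp0⟩
  have hl : 𝔓.asIdeal.LiesOver v.asIdeal := ⟨rfl⟩
  have hroot' : aeval θ f = 0 := by
    rw [fF, aeval_map_algebraMap] at hroot
    exact hroot
  have hint : IsIntegral (𝓞 M) θ := ⟨f, hmon, by rw [← aeval_def]; exact hroot'⟩
  obtain ⟨y, hy⟩ := (IsIntegralClosure.isIntegral_iff (R := 𝓞 M) (A := 𝓞 Ω)).1 hint
  have hadj : Algebra.adjoin M {algebraMap (𝓞 Ω) Ω y} = ⊤ := by
    have h1 : IsIntegral M θ := hint.tower_top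
    have h2 := IntermediateField.adjoin_simple_toSubalgebra_of_isAlgebraic h1.isAlgebraic
    rw [hy, ← h2, htop, IntermediateField.top_toSubalgebra]
  refine ⟨v, fun a ha => ha, fun x =>
    Pool.Agent.N603.PM.UR.core (𝓞 M) M Ω (𝓞 Ω) y hadj 𝔓 ?_ v x⟩
  intro hmem
  have hgy : aeval y f = 0 := by
    apply IsFractionRing.injective (𝓞 Ω) Ω
    rw [map_zero, ← Polynomial.aeval_algebraMap_apply, hy]
    exact hroot'
  have hint' : IsIntegral (𝓞 M) y := ⟨f, hmon, hgy⟩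
  have hdvd : minpoly (𝓞 M) y ∣ f := minpoly.isIntegrallyClosed_dvd hint' hgy
  obtain ⟨q, hq⟩ := hdvd
  have h1 : aeval y (derivative f) = aeval y (derivative (minpoly (𝓞 M) y)) * aeval y q := by
    have h2 := congrArg (fun p : (𝓞 M)[X] => aeval y (derivative p)) hq
    simp only [derivative_mul, map_add, map_mul, minpoly.aeval, zero_mul, add_zero] at h2
    exact h2
  have h2 : aeval y (derivative f) ∈ 𝔓.asIdeal := by
    rw [h1]
    exact Ideal.mul_mem_right _ _ hmem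
  have h4 : 𝔓.valuation Ω (algebraMap (𝓞 Ω) Ω (aeval y (derivative f))) < 1 :=
    (HeightOneSpectrum.valuation_lt_one_iff_mem (K := Ω) 𝔓 _).2 h2
  rw [← Polynomial.aeval_algebraMap_apply, hy] at h4
  rw [fF, derivative_map, aeval_map_algebraMap] at h3
  rw [h3] at h4
  exact lt_irrefl _ h4

theorem exists_over (L Ω : Type) [Field L] [NumberField L] [Field Ω] [NumberField Ω] [Algebra L Ω]
    (v : HeightOneSpectrum (𝓞 L)) :
    ∃ (𝔓 : HeightOneSpectrum (𝓞 Ω)) (e : ℕ), Ov v.asIdeal 𝔓 ∧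
      ∀ x : L, 𝔓.valuation Ω (algebraMap L Ω x) = v.valuation L x ^ e := by
  haveI : FiniteDimensional L Ω := Module.Finite.of_restrictScalars_finite ℚ L Ω
  have t6 : IsIntegralClosure (𝓞 Ω) (𝓞 L) Ω := IsIntegralClosure.tower_top (R := ℤ)
  haveI : Module.Finite (𝓞 L) (𝓞 Ω) := IsIntegralClosure.finite (𝓞 L) L Ω (𝓞 Ω)
  have hinj : Function.Injective (algebraMap (𝓞 L) (𝓞 Ω)) := FaithfulSMul.algebraMap_injective _ _
  obtain ⟨Q, -, hQp, hQ⟩ := Ideal.exists_ideal_over_prime_of_isIntegral (S := 𝓞 Ω) v.asIdeal ⊥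
    (by
      intro x hx
      have h1 : algebraMap (𝓞 L) (𝓞 Ω) x = 0 := by simpa using hx
      have h2 : x = 0 := hinj (by rw [h1, map_zero])
      rw [h2]
      exact zero_mem _)
  have hQ0 : Q ≠ ⊥ := by
    rintro rfl
    apply v.ne_bot
    rw [← hQ]
    exact (RingHom.injective_iff_ker_eq_bot _).1 hinj
  let P : HeightOneSpectrum (𝓞 Ω) := ⟨Q, hQp, hQ0⟩
  have hl : P.asIdeal.LiesOver v.asIdeal := ⟨hQ.symm⟩
  refine ⟨P, _, fun a ha => ?_, fun x => (HeightOneSpectrum.valuation_liesOver Ω v P x).symm⟩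
  rw [← hQ] at ha
  exact ha

theorem up : S_UP := by
  intro F L M Ω _ _ _ _ _ _ _ _ _ _ _ _ _ _ _ g f θ hG htop v 𝔓 o h1 hun
  obtain ⟨𝔓', e, o', he⟩ := exists_over L Ω 𝔓
  obtain ⟨fM, hfM⟩ : ∃ fM : (𝓞 M)[X], fM = f.map (algebraMap (𝓞 F) (𝓞 M)) := ⟨_, rfl⟩
  have hfF : fF fM = (fF f).map (algebraMap F M) := by
    rw [hfM, fF, fF, Polynomial.map_map, Polynomial.map_map, ← IsScalarTower.algebraMap_eq (𝓞 F) (𝓞 M) M,
      ← IsScalarTower.algebraMap_eq (𝓞 F) F M]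
  obtain ⟨w, o2, hw⟩ := utop M Ω fM (algebraMap L Ω θ) (by rw [hfM]; exact hG.mon.map _)
    (by rw [hfF, aeval_up, hG.root, map_zero]) htop 𝔓'
    (by rw [hfF, derivative_map, aeval_up, he, h1, one_pow])
  have e0 : e ≠ 0 := by
    rintro rfl
    obtain ⟨a, ha, ha0⟩ := Submodule.exists_mem_ne_zero_of_ne_bot 𝔓.ne_bot
    have h3 : 𝔓'.valuation Ω (algebraMap (𝓞 Ω) Ω (algebraMap (𝓞 L) (𝓞 Ω) a)) < 1 :=
      (HeightOneSpectrum.valuation_lt_one_iff_mem (K := Ω) 𝔓' _).2 (o' a ha)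
    rw [← IsScalarTower.algebraMap_apply (𝓞 L) (𝓞 Ω) Ω, IsScalarTower.algebraMap_apply (𝓞 L) L Ω, he,
      pow_zero] at h3
    exact lt_irrefl _ h3
  have ow : Ov v.asIdeal w := by
    intro a ha
    have h3 : 𝔓.valuation L (algebraMap (𝓞 L) L (algebraMap (𝓞 F) (𝓞 L) a)) < 1 :=
      (HeightOneSpectrum.valuation_lt_one_iff_mem (K := L) 𝔓 _).2 (o a ha)
    refine (HeightOneSpectrum.valuation_lt_one_iff_mem (K := M) w _).1 ?_
    change w.valuation M (algebraMap (𝓞 M) M (algebraMap (𝓞 F) (𝓞 M) a)) < 1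
    rw [← IsScalarTower.algebraMap_apply (𝓞 F) (𝓞 L) L, IsScalarTower.algebraMap_apply (𝓞 F) F L] at h3
    rw [← IsScalarTower.algebraMap_apply (𝓞 F) (𝓞 M) M, IsScalarTower.algebraMap_apply (𝓞 F) F M, ← hw,
      alg_comm (L := L), he]
    exact pow_lt_one' h3 e0
  have hvw := hun w ow
  obtain ⟨π, hπ⟩ := v.valuation_exists_uniformizer F
  have h5 : 𝔓.valuation L (algebraMap F L π) ^ e = WithZero.exp (-1 : ℤ) := by
    rw [← he, ← alg_comm (M := M), hw, hvw, hπ]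
  have e1 := Pool.Agent.N874.TW.exp_pow h5
  subst e1
  have hv : Unr 𝔓 𝔓' := fun x => by rw [he, pow_one]
  refine ⟨𝔓', hv, fun hd s hs => ?_⟩
  haveI : FiniteDimensional M Ω := Module.Finite.of_restrictScalars_finite ℚ M Ω
  refine Pool.Agent.N874.TW.dens3 (K := F) (M := M) (𝓞 Ω) (𝓞 M) (θ := θ) htop 𝔓' w hw ?_ (hd w ow) s hs
  rw [hv]
  exact Pool.Agent.N78.PF.val_theta hG 𝔓

end Pool.Agent.L0h51.UT
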