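import Pool.Agent.L0h51.UT.Fin
import Pool.Agent.L0h51.UT.Up

/-!
# Parts SEL and FIN of project UT
-/

set_option autoImplicit false

namespace Pool.Agent.L0h51.UT

theorem selT : Pool.Agent.L0h50.UT.S_SEL := sel up

theorem finxT : Pool.Agent.L0h50.UT.S_FINX := finx up

end Pool.Agent.L0h51.UT
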