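import Pool.Agent.L0h51.UT.Sel
import Pool.Agent.L0h51.TM.Fin
import Pool.Agent.L0h51.TM.Fam1
import Pool.Agent.N710.PF.Exs

/-!
# The count, uniformly in `M` (parts FAM, EXS, MAI, FIN of project UT)

After `N99/PF/Main.lean` (helper99) and `N61/PF/Fin1.lean` (helper61).
-/

set_option autoImplicit false
set_option linter.all false

open Polynomial IsDedekindDomain NumberField WithZero Module
open scoped Classical IntermediateField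

namespace Pool.Agent.L0h51.UT

open Pool.Agent.N783.PF
open Pool.Agent.N352.PJ (dd)
open Pool.Agent.N99.PF (card_fib ht_card ht_scale scale_inj good_card)
open Pool.Agent.N170.PF (LBad.mono irr_scale fF_scale)
open Pool.Agent.N78.PF (rd_eq sp_le)
open Pool.Agent.N874.QM (SelC ShaC SelM)
open Pool.Agent.L0h51.TM (fam1)
open Pool.Agent.L0h50.UT (Unr Dns Two Adm Spl Uni S_UTOP S_UP S_SEL)
open Pool.Agent.N61.PF

/-- Existence of `S`. -/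
theorem exsT (F : Type) [Field F] [NumberField F] {T : Set ℕ} (hT : T.Infinite)
    (hT2 : ∀ q ∈ T, q.Prime ∧ q % 8 = 1) (W r : ℕ) :
    ∃ (S : Finset ℕ) (𝔮 : ℕ → Ideal (𝓞 F)) (h P : ℕ → (𝓞 F)[X]),
      GoodS 1 W S 𝔮 h P ∧ S.card = r ∧ ∀ q ∈ S, q ∈ T := by
  obtain ⟨S, hS1, hS⟩ := (hT.diff (Set.finite_Iic (W + (2 * 1 + 1) + (discr F).natAbs))).exists_subset_card_eq r
  have hS2 : ∀ q ∈ S, q.Prime ∧ W + (2 * 1 + 1) + (discr F).natAbs < q ∧ q % 8 = 1 ∧ q ∈ T := by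
    intro q hq
    have h := hS1 hq
    exact ⟨(hT2 q h.1).1, by simpa using h.2, (hT2 q h.1).2, h.1⟩
  have hdata : ∀ q : ℕ, ∃ (𝔮 : Ideal (𝓞 F)) (h A : (𝓞 F)[X]), q ∈ S →
    (∀ 𝔭 : Ideal (𝓞 F), 𝔭.IsPrime → (q : 𝓞 F) ∉ 𝔭 ^ 2) ∧
    𝔮.IsPrime ∧ (q : 𝓞 F) ∈ 𝔮 ∧
    h.Monic ∧ h.natDegree = 2 * 1 ∧ Irreducible (rd 𝔮 h) ∧
    A.Monic ∧ A.natDegree = 2 * 1 + 1 ∧ A.coeff (2 * 1) = 0 ∧
    Cg 𝔮 A (X * h) ∧
    ∀ 𝔭 : Ideal (𝓞 F), 𝔭.IsPrime → (q : 𝓞 F) ∈ 𝔭 → 𝔭 ≠ 𝔮 → Irreducible (rd 𝔭 A) := by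
    intro q
    by_cases hq : q ∈ S
    · obtain ⟨h1, h2, h3, -⟩ := hS2 q hq
      obtain ⟨𝔮, h, A, hh⟩ := Pool.Agent.N710.PF.exists_data F 1 q le_rfl h1 (by omega) (by omega)
      exact ⟨𝔮, h, A, fun _ => hh⟩
    · exact ⟨⊥, 0, 0, fun h => absurd h hq⟩
  choose 𝔮 h A hh using hdata
  refine ⟨S, 𝔮, h, A, fun q hq => ?_, hS, fun q hq => (hS2 q hq).2.2.2⟩
  obtain ⟨h1, h2, h3, -⟩ := hS2 q hq
  exact ⟨h1, by omega, by omega, h3, hh q hq⟩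

variable {F : Type} [Field F] [NumberField F]

theorem admOf {g B W : ℕ} {f f₁ : (𝓞 F)[X]} {S : Finset ℕ} {𝔮 : ℕ → Ideal (𝓞 F)}
    {r P : ℕ → (𝓞 F)[X]} {D T : Set ℕ} (hS : GoodS g W S 𝔮 r P) (hc : Cg (sp F W) f f₁)
    (hi : ∀ 𝔭 : Ideal (𝓞 F), 𝔭.IsPrime → (W : 𝓞 F) ∈ 𝔭 → Irreducible (rd 𝔭 f₁))
    (hDW : ∀ p ∈ D, p ∣ W) (hST : ∀ q ∈ S, q ∈ T) {M : Type} [Field M] [NumberField M]
    [Algebra F M] (hM : Spl F M D T) : Adm M f S 𝔮 := by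
  refine ⟨hM.two, fun v w o => ?_, fun q hq v w hv o => ?_⟩
  · rcases hM.ram v w o with h | ⟨p, hp, hpv⟩
    · exact Or.inl h
    · right
      have hW : (W : 𝓞 F) ∈ v.asIdeal := by
        obtain ⟨k, hk⟩ := hDW p hp
        rw [hk]
        push_cast
        exact Ideal.mul_mem_right _ _ hpv
      rw [rd_eq (sp_le hW) hc]
      exact hi _ v.isPrime hW
  · obtain ⟨-, -, -, -, -, -, a2, -⟩ := hS q hq
    exact hM.spl q (hST q hq) v w (by rw [hv]; exact a2) o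

theorem twX (hUP : S_UP) (F : Type) [Field F] [NumberField F] (D T : Set ℕ) : ∃ κ : ℕ,
    ∀ (B N W : ℕ) (f₁ : (𝓞 F)[X]) (S : Finset ℕ) (𝔮 : ℕ → Ideal (𝓞 F)) (r P : ℕ → (𝓞 F)[X])
    (f : (𝓞 F)[X]), κ ≤ W → GoodF 1 W f₁ →
    (∀ 𝔭 : Ideal (𝓞 F), 𝔭.IsPrime → (W : 𝓞 F) ∈ 𝔭 → Irreducible (rd 𝔭 f₁)) →
    (∀ p ∈ D, p ∣ W) → (∀ q ∈ S, q ∈ T) →
    GoodS 1 W S 𝔮 r P → Fam 1 B W f₁ S P f → 2 ^ κ * B ≤ 4 ^ N → 1 ≤ B →
    ¬ LBad 1 N κ S 𝔮 P f →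
    ∃ J ⊆ S, Irreducible (fF (f.scaleRoots ((Dp J : ℕ) : 𝓞 F))) ∧
      Min 1 (f.scaleRoots ((Dp J : ℕ) : 𝓞 F)) ∧
      Uni (fun M _ _ _ => Spl F M D T) (f.scaleRoots ((Dp J : ℕ) : 𝓞 F)) := by
  obtain ⟨κ₁, hκ₁⟩ := core 1 F le_rfl
  obtain ⟨κ₂, hκ₂⟩ := sqf 1 F le_rfl
  refine ⟨max κ₁ κ₂, fun B N W f₁ S 𝔮 r P f hW hf₁ hi hdW hspl hS hF hBN hB hnb => ?_⟩
  have hBN1 : 2 ^ κ₁ * B ≤ 4 ^ N :=
    (Nat.mul_le_mul_right _ (Nat.pow_le_pow_right (by norm_num) (le_max_left _ _))).trans hBN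
  have hBN2 : 2 ^ κ₂ * B ≤ 4 ^ N :=
    (Nat.mul_le_mul_right _ (Nat.pow_le_pow_right (by norm_num) (le_max_right _ _))).trans hBN
  have hnb1 : ¬ LBad 1 N κ₁ S 𝔮 P f := fun h => hnb (LBad.mono (le_max_left _ _) h)
  have hnb2 : ¬ LBad 1 N κ₂ S 𝔮 P f := fun h => hnb (LBad.mono (le_max_right _ _) h)
  have hm := hF.ht.mon
  have hd := hF.ht.deg
  have hirr : Irreducible (fF f) := Pool.Agent.N667.PF.irr F 1 W f₁ f hf₁ hF.one hm hd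
  have hsq : SqF 1 f := hκ₂ B N W f₁ S 𝔮 r P f ((le_max_right _ _).trans hW) hf₁ hS hF hirr hBN2
    hB hnb2
  obtain ⟨L, _, _, _, θ, hc⟩ := Pool.Agent.N667.PF.gen F 1 f hm hd hirr
  obtain ⟨J, hJ, hcore⟩ := hκ₁ L f f₁ θ B N W S 𝔮 r P ((le_max_left _ _).trans hW) hc hsq hf₁ hS
    hF hBN1 hB hnb1
  have hD0 : Dp J ≠ 0 := by
    rw [Dp, Finset.prod_ne_zero_iff]
    exact fun q hq => (hS q (hJ hq)).1.ne_zero
  refine ⟨J, hJ, ?_, Pool.Agent.N547.PF.min 1 W F S J 𝔮 r P f le_rfl hS hsq hm hd hF.con hJ, ?_⟩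
  · rw [fF_scale hm]
    exact irr_scale (Nat.cast_ne_zero.2 hD0) hirr
  · intro M _ _ _ hM
    exact sel hUP 1 W F L M f f₁ θ S J 𝔮 r P le_rfl hc hsq hf₁ hF.one hS hF.con hirr
      (admOf (B := B) hS hF.one hi hdW hspl hM) hJ hcore

theorem mainX (hUP : S_UP) (F : Type) [Field F] [NumberField F] {D T : Set ℕ} (hD : D.Finite)
    (hDp : ∀ p ∈ D, p.Prime) (hT : T.Infinite) (hT2 : ∀ q ∈ T, q.Prime ∧ q % 8 = 1) : ∃ c : ℝ, 0 < c ∧ ∃ B₀ : ℕ, ∀ B ≥ B₀,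
    {f : (𝓞 F)[X] | Ht 1 B f}.Finite ∧ c * ({f : (𝓞 F)[X] | Ht 1 B f}.ncard : ℝ) ≤
    ({f : (𝓞 F)[X] | Ht 1 B f ∧ Irreducible (fF f) ∧ Min 1 f ∧
      Uni (fun M _ _ _ => Spl F M D T) f}.ncard : ℝ) := by
  obtain ⟨κ, htw⟩ := twX hUP F D T
  obtain ⟨C, K, hbad⟩ := bad F 1 κ le_rfl
  obtain ⟨b, hb⟩ := hD.bddAbove
  obtain ⟨W, f₁, hKW, hpW, hf₁, hi, c, hc, hfam⟩ := fam1 F (max (max K κ) b)
  have hdW : ∀ p ∈ D, p ∣ W := fun p hp => hpW p (hDp p hp) ((hb hp).trans (le_max_right _ _))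
  obtain ⟨-, Cp, hCp, -, hpt⟩ := Pool.Agent.N490.PF.pts F
  set D₁ : ℕ := Module.finrank ℚ F * dd 1 with hD₁
  obtain ⟨m, hm⟩ : ∃ m : ℕ, 2 * (C * (4 * 2 ^ κ : ℝ) ^ D₁) / c < 2 ^ m :=
    pow_unbounded_of_one_lt _ (by norm_num)
  obtain ⟨S, 𝔮, r, P, hS, hcard, hspl⟩ := exsT F hT hT2 W m
  obtain ⟨B₁₀, hB₁₀⟩ := hfam S 𝔮 r P hS
  obtain ⟨N₀, hN₀⟩ := hbad W S 𝔮 r P (((le_max_left _ _).trans (le_max_left _ _)).trans hKW) hS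
  set Q : ℕ := ∏ q ∈ S, q with hQ
  have hq1 : ∀ q ∈ S, 1 ≤ q := fun q hq => (hS q hq).1.pos
  have hQ1 : 1 ≤ Q := Finset.one_le_prod' hq1
  set Pn : ℕ := (∏ q ∈ S, q ^ (2 * 1)) ^ Module.finrank ℚ F with hPn
  have hP0 : (0 : ℝ) < Pn := by
    have : 0 < Pn := pow_pos (Finset.prod_pos fun q hq => pow_pos (hq1 q hq) _) _
    exact_mod_cast this
  have hQ0 : (0 : ℝ) < Q := by exact_mod_cast hQ1
  set X₀ : ℕ := max (max B₁₀ (4 ^ N₀)) 1 with hX₀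
  refine ⟨c / 2 / (Pn * 2 ^ m * ((2 * Cp) ^ (2 * 1) * (2 * Q) ^ D₁)), by positivity, X₀ * Q,
    fun B hB => ?_⟩
  set B₁ : ℕ := B / Q with hB₁
  have hBX : X₀ ≤ B₁ := (Nat.le_div_iff_mul_le hQ1).2 hB
  have hb1 : 1 ≤ B₁ := (le_max_right _ _).trans hBX
  have hb2 : B₁₀ ≤ B₁ := ((le_max_left _ _).trans (le_max_left _ _)).trans hBX
  have hb3 : 4 ^ N₀ ≤ B₁ := ((le_max_right _ _).trans (le_max_left _ _)).trans hBX
  have hBQ : B₁ * Q ≤ B := Nat.div_mul_le_self B Q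
  have hBQ2 : B ≤ 2 * Q * B₁ := by
    have e1 : B < B₁ * Q + Q := by
      have := Nat.lt_div_mul_add (a := B) (b := Q) hQ1
      exact this
    nlinarith
  have hB1 : 1 ≤ B := le_trans (by nlinarith) hBQ
  obtain ⟨N, hNa, hNb⟩ : ∃ N : ℕ, 2 ^ κ * B₁ ≤ 4 ^ N ∧ 4 ^ N ≤ 4 * (2 ^ κ * B₁) := by
    refine ⟨Nat.log 4 (2 ^ κ * B₁) + 1, (Nat.lt_pow_succ_log_self (by norm_num) _).le, ?_⟩
    rw [pow_succ, mul_comm]
    refine Nat.mul_le_mul_left 4 (Nat.pow_log_le_self 4 ?_)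
    positivity
  have hNN : N₀ ≤ N := by
    have e1 : 4 ^ N₀ ≤ 4 ^ N := hb3.trans (le_trans (Nat.le_mul_of_pos_left _ (by positivity)) hNa)
    exact (Nat.pow_le_pow_iff_right (by norm_num)).1 e1
  obtain ⟨hfin, hBd⟩ := hN₀ N hNN
  refine ⟨(ht_card hCp hpt 1 B hB1).1, ?_⟩
  set H := {f : (𝓞 F)[X] | Ht 1 B f ∧ Irreducible (fF f) ∧ Min 1 f ∧
      Uni (fun M _ _ _ => Spl F M D T) f} with hH
  set G := {f : (𝓞 F)[X] | Fam 1 B₁ W f₁ S P f} \ {f : (𝓞 F)[X] | LBad 1 N κ S 𝔮 P f} with hGdef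
  have hHf : H.Finite := (ht_card hCp hpt 1 B hB1).1.subset fun f hf => hf.1
  have hGf : G.Finite := (ht_card hCp hpt 1 B₁ hb1).1.subset fun f hf => hf.1.ht
  have hG : c / 2 * (B₁ : ℝ) ^ D₁ ≤ Pn * (G.ncard : ℝ) := by
    refine good_card (C := C) (m := m) (κ := κ) hc hP0 B₁ N (hB₁₀ B₁ hb2) hfin ?_ hm ?_
    · rw [hcard] at hBd
      have e2 : Module.finrank ℚ F * (2 * N * dd 1) = 2 * N * D₁ := by rw [hD₁]; ring
      rw [e2] at hBd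
      exact_mod_cast hBd
    · exact_mod_cast hNb
  have hJ0 : ∀ J ⊆ S, ((Dp J : ℕ) : 𝓞 F) ≠ 0 := by
    intro J hJ
    have : 0 < ∏ q ∈ J, q := Finset.prod_pos fun q hq => hq1 q (hJ hq)
    have h5 : (Dp J : ℕ) ≠ 0 := this.ne'
    exact_mod_cast h5
  have hcard1 := card_fib hGf hHf S (fun J f => f.scaleRoots ((Dp J : ℕ) : 𝓞 F)) (by
      intro f hf
      obtain ⟨J, hJ, hirr, hsel⟩ := htw B₁ N W f₁ S 𝔮 r P f
        (((le_max_right _ _).trans (le_max_left _ _)).trans hKW) hf₁ hi hdW hspl hS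
        hf.1 hNa hb1 hf.2
      have hDle : Dp J ≤ Q :=
        Finset.prod_le_prod_of_subset_of_one_le' hJ fun q hq _ => hq1 q hq
      exact ⟨J, hJ, ht_scale hf.1.ht ((Nat.mul_le_mul_left _ hDle).trans hBQ), hirr, hsel⟩) (by
      intro J hJ x hx y hy hxy
      exact scale_inj (hJ0 J hJ) (by rw [hx.1.ht.deg, hy.1.ht.deg]) hxy)
  rw [hcard] at hcard1
  have hcard' : (G.ncard : ℝ) ≤ 2 ^ m * H.ncard := by exact_mod_cast hcard1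
  have hM' : ({f : (𝓞 F)[X] | Ht 1 B f}.ncard : ℝ) ≤
      (2 * Cp) ^ (2 * 1) * (2 * Q) ^ D₁ * (B₁ : ℝ) ^ D₁ := by
    have e1 : ({f : (𝓞 F)[X] | Ht 1 B f}.ncard : ℝ) ≤ (2 * Cp) ^ (2 * 1) * (B : ℝ) ^ D₁ :=
      (ht_card hCp hpt 1 B hB1).2
    refine e1.trans ?_
    rw [mul_assoc, ← mul_pow]
    have e2 : (B : ℝ) ≤ 2 * Q * B₁ := by exact_mod_cast hBQ2
    gcongr
  calc c / 2 / (Pn * 2 ^ m * ((2 * Cp) ^ (2 * 1) * (2 * Q) ^ D₁)) *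
        ({f : (𝓞 F)[X] | Ht 1 B f}.ncard : ℝ)
      ≤ c / 2 / (Pn * 2 ^ m * ((2 * Cp) ^ (2 * 1) * (2 * Q) ^ D₁)) *
        ((2 * Cp) ^ (2 * 1) * (2 * Q) ^ D₁ * (B₁ : ℝ) ^ D₁) :=
        mul_le_mul_of_nonneg_left hM' (by positivity)
    _ = c / 2 * (B₁ : ℝ) ^ D₁ / (Pn * 2 ^ m) := by
        field_simp
    _ ≤ (Pn * (G.ncard : ℝ)) / (Pn * 2 ^ m) := by gcongr
    _ ≤ (Pn * (2 ^ m * H.ncard)) / (Pn * 2 ^ m) := by gcongr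
    _ = H.ncard := by field_simp

theorem goodX_of {F M : Type} [Field F] [NumberField F] [Field M] [NumberField M] [Algebra F M]
    {B : ℕ} {f : (𝓞 F)[X]} (h : Ht 1 B f)
    (hirr' : Irreducible ((fF f).map (algebraMap F M)))
    (hsel : SelM M ((fF f).map (algebraMap F M))) :
    Pool.Agent.L0h50.UT.GoodM M (f.coeff 1, f.coeff 0) := by
  have e : (fF f).map (algebraMap F M) = X ^ 3 + C (algebraMap F M ((f.coeff 1 : 𝓞 F) : F)) * X +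
      C (algebraMap F M ((f.coeff 0 : 𝓞 F) : F)) := by
    rw [fF_eq h]
    simp
  rw [e] at hirr' hsel
  have hd := disc_ne hirr'
  have hs := selc M _ _ hd hirr' hsel
  obtain ⟨hdiv, hsha⟩ := Pool.Agent.N713.QM.gfc M _ _ hd hs
  obtain ⟨hf, ho⟩ := Pool.Agent.N459.QM.finc M _ _ hd hdiv
  exact ⟨hs, hsha, hf, ho⟩

/-- Part FIN of project UT; `3` may be in `D`. -/
theorem finx3 (hUP : S_UP) (F : Type) [Field F] [NumberField F] (D T : Set ℕ) (hD : D.Finite)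
    (hDp : ∀ p ∈ D, p.Prime) (hT : T.Infinite) (hT2 : ∀ q ∈ T, q.Prime ∧ q % 8 = 1) :
    ∃ c : ℝ, 0 < c ∧ ∃ Y₀ : ℝ,
    ∀ Y : ℝ, {p : 𝓞 F × 𝓞 F | Crv Y p}.Finite ∧ (Y₀ ≤ Y → 0 < {p : 𝓞 F × 𝓞 F | Crv Y p}.ncard ∧
      c * ({p : 𝓞 F × 𝓞 F | Crv Y p}.ncard : ℝ) ≤
        ({p : 𝓞 F × 𝓞 F | Crv Y p ∧ ∀ (M : Type) [Field M] [NumberField M] [Algebra F M],
          Spl F M D T → Pool.Agent.L0h50.UT.GoodM M p}.ncard : ℝ)) := by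
  have h0 : S_PTS := Pool.Agent.N490.PF.pts
  obtain ⟨-, C, hC, hlow, hup⟩ := h0 F
  obtain ⟨c, hc, B₀, hmain⟩ := mainX hUP F hD hDp hT hT2
  set d := Module.finrank ℚ F with hd
  set B₁ : ℕ := max B₀ 1 with hB₁
  refine ⟨c / (C ^ 2 * (C ^ 2 * 2 ^ (6 * d + 2))), by positivity, 27 * (B₁ : ℝ) ^ 6, ?_⟩
  intro Y
  have hfin := crv_finite (F := F) h0 Y
  refine ⟨hfin, ?_⟩
  intro hY
  have hB₁1 : 1 ≤ B₁ := le_max_right _ _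
  have hB₁r : (1 : ℝ) ≤ B₁ := by exact_mod_cast hB₁1
  have hY27 : 27 ≤ Y := by
    have : (1 : ℝ) ≤ (B₁ : ℝ) ^ 6 := one_le_pow₀ hB₁r
    linarith
  obtain ⟨B, hBB, hBY, hYB⟩ := exists_B B₁ Y hB₁1 hY
  have hB1 : 1 ≤ B := hB₁1.trans hBB
  obtain ⟨hfinH, hprop⟩ := hmain B ((le_max_left _ _).trans hBB)
  constructor
  · rw [Set.ncard_pos hfin]
    refine ⟨(1, 1), ⟨?_, ?_, ?_⟩⟩
    · norm_num
    · intro 𝔭 hp _ hcon
      apply hp.ne_top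
      rw [Ideal.eq_top_iff_one]
      exact Ideal.pow_le_self (by norm_num) hcon.1
    · intro σ
      constructor
      · simp; linarith
      · simp; linarith
  · have hu := crv_upper hC hup hB1 hYB
    have hl := ht_lower hC hlow hB1 hfinH
    rw [← hd] at hu hl
    -- the good polynomials give good curves
    have h5 : ({f : (𝓞 F)[X] | Ht 1 B f ∧ Irreducible (fF f) ∧ Min 1 f ∧
          Uni (fun M _ _ _ => Spl F M D T) f}.ncard : ℝ) ≤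
        ({p : 𝓞 F × 𝓞 F | Crv Y p ∧ ∀ (M : Type) [Field M] [NumberField M] [Algebra F M],
          Spl F M D T → Pool.Agent.L0h50.UT.GoodM M p}.ncard : ℝ) := by
      have h6 := Set.ncard_le_ncard_of_injOn (fun f : (𝓞 F)[X] => (f.coeff 1, f.coeff 0))
        (s := {f : (𝓞 F)[X] | Ht 1 B f ∧ Irreducible (fF f) ∧ Min 1 f ∧
          Uni (fun M _ _ _ => Spl F M D T) f})
        (t := {p : 𝓞 F × 𝓞 F | Crv Y p ∧ ∀ (M : Type) [Field M] [NumberField M] [Algebra F M],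
          Spl F M D T → Pool.Agent.L0h50.UT.GoodM M p})
        (fun f hf => ⟨crv_of_ht hf.1 hf.2.1 hf.2.2.1 hBY, fun M _ _ _ hM => goodX_of hf.1
          (hf.2.2.2 M hM).1 (hf.2.2.2 M hM).2⟩)
        (by
          intro f hf f' hf' h
          have e := Prod.mk.injEq .. ▸ h
          rw [eq_pol hf.1, eq_pol hf'.1, e.1, e.2])
        (hfin.subset fun p hp => hp.1)
      exact_mod_cast h6
    have hBd : 0 < (B : ℝ) ^ (5 * d) := by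
      have : (0 : ℝ) < B := by exact_mod_cast hB1
      positivity
    have h7 : ({p : 𝓞 F × 𝓞 F | Crv Y p}.ncard : ℝ) ≤
        (C ^ 2 * 2 ^ (6 * d + 2)) * (C ^ 2 * ({f : (𝓞 F)[X] | Ht 1 B f}.ncard : ℝ)) :=
      hu.trans (mul_le_mul_of_nonneg_left hl (by positivity))
    calc c / (C ^ 2 * (C ^ 2 * 2 ^ (6 * d + 2))) * ({p : 𝓞 F × 𝓞 F | Crv Y p}.ncard : ℝ)
        ≤ c / (C ^ 2 * (C ^ 2 * 2 ^ (6 * d + 2))) *
          ((C ^ 2 * 2 ^ (6 * d + 2)) * (C ^ 2 * ({f : (𝓞 F)[X] | Ht 1 B f}.ncard : ℝ))) :=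
          mul_le_mul_of_nonneg_left h7 (by positivity)
      _ = c * ({f : (𝓞 F)[X] | Ht 1 B f}.ncard : ℝ) := by
          field_simp
      _ ≤ _ := hprop.trans h5

theorem finx (hUP : S_UP) : Pool.Agent.L0h50.UT.S_FINX := fun F _ _ D T hD hDp hT hT2 =>
  finx3 hUP F D T hD (fun p hp => (hDp p hp).1) hT hT2

end Pool.Agent.L0h51.UT
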