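import Pool.Agent.L0h50.UT.StmT
import Pool.Agent.L0h51.UT.Up
import Pool.Agent.N951.PF.Fam

/-!
# The layers of the tower (part LAY of project UT)
-/

set_option autoImplicit false
set_option linter.all false

open IsDedekindDomain NumberField
open scoped Classical

namespace Pool.Agent.L0h51.UT

open Pool.Agent.N783.PF (Ov)
open Pool.Agent.L0h50.UT (Unr Dns Two Spl S_SPC S_EMB S_LAY IsTw Layer D10 UnrQ SplQ)

/-- A real embedding extends if `M = F N` with `N` totally real. -/
theorem real_ext {N F M : Type} [Field N] [Field F] [NumberField F] [Field M] [NumberField M]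
    [Algebra F M] (ι : N →+* M) (hadj : Algebra.adjoin F (Set.range ι) = ⊤)
    (hN : ∀ (φ : N →+* ℂ) (y : N), (φ y).im = 0) (σ : F →+* ℝ) :
    ∃ τ : M →+* ℝ, ∀ x : F, τ (algebraMap F M x) = σ x := by
  letI : Algebra F ℂ := (Complex.ofRealHom.comp σ).toAlgebra
  haveI : FiniteDimensional F M := Module.Finite.of_restrictScalars_finite ℚ F M
  let τ' : M →ₐ[F] ℂ := IsAlgClosed.lift
  have hF : ∀ x : F, τ' (algebraMap F M x) = ((σ x : ℝ) : ℂ) := fun x => τ'.commutes x
  have him : ∀ y : M, (τ' y).im = 0 := by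
    intro y
    have hy : y ∈ Algebra.adjoin F (Set.range ι) := by rw [hadj]; trivial
    induction hy using Algebra.adjoin_induction with
    | mem x hx =>
      obtain ⟨z, rfl⟩ := hx
      exact hN ((τ' : M →+* ℂ).comp ι) z
    | algebraMap r => rw [hF, Complex.ofReal_im]
    | add x y _ _ hx hy => rw [map_add, Complex.add_im, hx, hy, add_zero]
    | mul x y _ _ hx hy => rw [map_mul, Complex.mul_im, hx, hy, mul_zero, zero_mul, add_zero]
  let τ : M →+* ℝ :=
    { toFun := fun y => (τ' y).re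
      map_one' := by rw [map_one, Complex.one_re]
      map_zero' := by rw [map_zero, Complex.zero_re]
      map_add' := fun x y => by rw [map_add, Complex.add_re]
      map_mul' := fun x y => by rw [map_mul, Complex.mul_re, him, zero_mul, sub_zero] }
  refine ⟨τ, fun x => ?_⟩
  change (τ' (algebraMap F M x)).re = σ x
  rw [hF, Complex.ofReal_re]

theorem lay (h1 : S_SPC) (h2 : S_EMB) : S_LAY := by
  intro L T hT F M _ _ _ _ _ hM
  obtain ⟨N, hN, hfin, hgal, ι, hadj⟩ := hM
  haveI := hfin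
  haveI : NumberField N := { }
  obtain ⟨m, hm⟩ := hT.pow N hN hfin hgal
  have hgal' : @IsGalois ℚ _ N _ DivisionRing.toRatAlgebra := by
    convert hgal
    exact Subsingleton.elim _ _
  have hm' : @Module.finrank ℚ N _ _ (@Algebra.toModule ℚ N _ _ DivisionRing.toRatAlgebra) =
      2 ^ m := by
    rw [← hm]
  obtain ⟨g1, g2, g3⟩ := @h1 N F M _ _ _ _ _ _ _ hgal' ι hadj
  have hspl : ∀ q : ℕ, q.Prime → q = 2 ∨ q ∈ T → ∀ (v : HeightOneSpectrum (𝓞 F))
      (w : HeightOneSpectrum (𝓞 M)), (q : 𝓞 F) ∈ v.asIdeal → Ov v.asIdeal w →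
      Unr v w ∧ Dns F w := fun q hq hq2 v w hv o => (g3 q hq v w hv o).2 (hT.spl N hN hgal q hq2)
  refine ⟨⟨g1, g2 m hm', fun v hv => ?_, fun σ => real_ext ι hadj (hT.real N hN) σ⟩,
    fun v w o => ?_, fun q hq v w hv o => hspl q (hT.pr q hq).1 (Or.inr hq) v w hv o⟩
  · obtain ⟨w, -, o, -⟩ := exists_over F M v
    obtain ⟨a, b⟩ := hspl 2 Nat.prime_two (Or.inl rfl) v w (by exact_mod_cast hv) o
    exact h2 F M v w a b
  · have hn : (Ideal.absNorm v.asIdeal : 𝓞 F) ∈ v.asIdeal := Ideal.absNorm_mem v.asIdeal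
    have hpos : 0 < Ideal.absNorm v.asIdeal := by
      rw [Nat.pos_iff_ne_zero, Ne, Ideal.absNorm_eq_zero_iff]
      exact v.ne_bot
    obtain ⟨q, hq, -, hqv⟩ := Pool.Agent.N951.PF.prime_factor v.asIdeal v.isPrime _ hpos hn
    by_cases hD : q ∈ D10
    · exact Or.inr ⟨q, hD, hqv⟩
    · exact Or.inl ((g3 q hq v w hqv o).1 (hT.unr N hN hgal q hq hD))

end Pool.Agent.L0h51.UT
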