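import Pool.Agent.L0h51.UT.Bas
import Pool.Agent.N301.JM.TOW

/-!
# The 2-Selmer group over `M` (part SEL of project UT)
-/

set_option autoImplicit false
set_option linter.all false

open Polynomial IsDedekindDomain NumberField WithZero Module
open scoped Classical IntermediateField

namespace Pool.Agent.L0h51.UT

open Pool.Agent.N874.PP (Ev Sq1 U0)
open Pool.Agent.N783.PQ (LocIm)
open Pool.Agent.N874.JM (LocF)
open Pool.Agent.N874.PM (Lies)
open Pool.Agent.N783.PF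
open Pool.Agent.N78.PF (map_locF)
open Pool.Agent.L0h51.TM
open Pool.Agent.L0h50.UT (Unr Dns Two Adm S_UTOP S_UP S_SEL)

section

variable {F L M Ω : Type} [Field F] [NumberField F] [Field L] [NumberField L] [Field M]
  [NumberField M] [Field Ω] [NumberField Ω] [Algebra F L] [Algebra F M] [Algebra L Ω]
  [Algebra M Ω] [Algebra F Ω] [IsScalarTower F L Ω] [IsScalarTower F M Ω]

theorem twoX {g W : ℕ} {f f₁ : (𝓞 F)[X]} {θ : L} {S J : Finset ℕ} {𝔮 : ℕ → Ideal (𝓞 F)}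
    {r P : ℕ → (𝓞 F)[X]} (H : DatX g W f f₁ θ S J 𝔮 r P)
    (w : HeightOneSpectrum (𝓞 F)) (hw : (2 : 𝓞 F) ∈ w.asIdeal) (φ : M →ₐ[F] w.adicCompletion F)
    (h : F[X])
    (hC : ∀ w' : HeightOneSpectrum (𝓞 M), LocF (w'.adicCompletion M)
      ((fF (f.scaleRoots ((Dp J : ℕ) : 𝓞 F))).map (algebraMap F M)) (h.map (algebraMap F M))) :
    LocF (w.adicCompletion F) (fF f) (h.comp (C ((Dp J : ℕ) : F) * X)) := by
  have hG := H.isGen
  have hS := H.goodS
  have hJS := H.sub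
  obtain ⟨D, hD⟩ : ∃ D : ℕ, D = Dp J := ⟨_, rfl⟩
  rw [← hD] at hC ⊢
  have hD0 : D ≠ 0 := by
    rw [hD, Dp, Finset.prod_ne_zero_iff]
    exact fun q hq => (hS q (hJS hq)).1.ne_zero
  have hD8 : D % 8 = 1 := by
    rw [hD]
    have : ∀ T : Finset ℕ, T ⊆ S → (∏ q ∈ T, q) % 8 = 1 := by
      intro T
      induction T using Finset.induction_on with
      | empty => intro _; rfl
      | insert a T ha ih =>
        intro hT
        rw [Finset.prod_insert ha, Nat.mul_mod, ih fun x hx => hT (Finset.mem_insert_of_mem hx),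
          (hS a (hT (Finset.mem_insert_self _ _))).2.2.2.1]
    exact this J hJS
  haveI : Fact (Nat.Prime 2) := ⟨Nat.prime_two⟩
  obtain ⟨δ, hδ⟩ := Pool.Agent.N891.PQ.sq_two D hD8
  obtain ⟨ι, hι, -, -⟩ := Pool.Agent.N498.PQ.cpl F 2 w (by
    change ((2 : ℕ) : 𝓞 F) ∈ w.asIdeal
    exact_mod_cast hw)
  haveI : CharZero (w.adicCompletion F) :=
    charZero_of_injective_algebraMap (algebraMap F (w.adicCompletion F)).injective
  obtain ⟨w', j, hj⟩ := emb_ext w φ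
  have e1 : (j.comp (algebraMap M (w'.adicCompletion M))).comp (algebraMap F M) =
      algebraMap F (w.adicCompletion F) :=
    RingHom.ext fun a => by
      rw [RingHom.comp_apply, RingHom.comp_apply, hj, φ.commutes]
  have h1 := locIm_map j (hC w')
  simp only [Polynomial.map_map] at h1
  have h2 : LocIm (w.adicCompletion F)
      ((fF (f.scaleRoots ((D : ℕ) : 𝓞 F))).map (algebraMap F (w.adicCompletion F)))
      (h.map (algebraMap F (w.adicCompletion F))) := by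
    rw [← e1]
    simpa only [fF, Polynomial.map_map, RingHom.comp_assoc] using h1
  exact map_locF hG.mon hG.deg hD0 (ι δ) (by rw [← map_pow, hδ, map_natCast]) h h2

theorem realX {g W : ℕ} {f f₁ : (𝓞 F)[X]} {θ : L} {S J : Finset ℕ} {𝔮 : ℕ → Ideal (𝓞 F)}
    {r P : ℕ → (𝓞 F)[X]} (H : DatX g W f f₁ θ S J 𝔮 r P)
    (σ : F →+* ℝ) (τ : M →+* ℝ) (hτ : τ.comp (algebraMap F M) = σ) (h : F[X])
    (hC : LocIm ℝ (((fF (f.scaleRoots ((Dp J : ℕ) : 𝓞 F))).map (algebraMap F M)).map τ)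
      ((h.map (algebraMap F M)).map τ)) :
    LocIm ℝ ((fF f).map σ) ((h.comp (C ((Dp J : ℕ) : F) * X)).map σ) := by
  have hG := H.isGen
  have hS := H.goodS
  have hJS := H.sub
  obtain ⟨D, hD⟩ : ∃ D : ℕ, D = Dp J := ⟨_, rfl⟩
  rw [← hD] at hC ⊢
  have hD0 : D ≠ 0 := by
    rw [hD, Dp, Finset.prod_ne_zero_iff]
    exact fun q hq => (hS q (hJS hq)).1.ne_zero
  rw [Polynomial.map_map, Polynomial.map_map _ τ, hτ] at hC
  letI : Algebra F ℝ := σ.toAlgebra
  exact map_locF (E := ℝ) hG.mon hG.deg hD0 (Real.sqrt D) (Real.sq_sqrt (Nat.cast_nonneg D)) h hC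

theorem descX (hUP : S_UP) {g W : ℕ} {f f₁ : (𝓞 F)[X]} {θ : L} {S J : Finset ℕ}
    {𝔮 : ℕ → Ideal (𝓞 F)} {r P : ℕ → (𝓞 F)[X]} (H : DatX g W f f₁ θ S J 𝔮 r P)
    (hA : Adm M f S 𝔮) (htop : M⟮algebraMap L Ω θ⟯ = ⊤) [IsGalois F M] {n : ℕ}
    (hM : Module.finrank F M = 2 ^ n) (hΩ : Module.finrank M Ω = Module.finrank F L)
    (hJ : Core f θ J 𝔮) (fD : M[X])
    (hfD : fD = (fF (f.scaleRoots ((Dp J : ℕ) : 𝓞 F))).map (algebraMap F M))
    (Θ : Ω) (hΘ : Θ = (Dp J : Ω) * algebraMap L Ω θ)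
    (hmin : ∀ p : M[X], aeval Θ p = 0 → fD ∣ p) (hsur : ∀ x : Ω, ∃ p : M[X], aeval Θ p = x)
    (x : Ω) (hx : x ≠ 0) (hC : CC M fD Θ x) (hN : IsSquare (Algebra.norm M x)) : IsSquare x := by
  have hG := H.isGen
  have hD0 : Dp J ≠ 0 := by
    rw [Dp, Finset.prod_ne_zero_iff]
    exact fun q hq => (H.goodS q (H.sub hq)).1.ne_zero
  refine Pool.Agent.N301.JM.tow' n F L M Ω two_ne_zero hM
    (by rw [hG.rank]; exact ⟨g, rfl⟩) hΩ (CC M fD Θ) (fun x _ => cc_sq hmin hsur x)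
    (fun x y _ _ hx hy => cc_mul hmin hsur hx hy) ?_ ?_ x hx hC hN
  · intro σ x hx
    have hc : ∀ a : M, σ (algebraMap M Ω a) =
        algebraMap M Ω (((σ.restrictScalars F).restrictNormal M) a) := by
      intro a
      rw [AlgEquiv.restrictNormal_commutes]
      rfl
    refine cc_aut ((σ.restrictScalars F).restrictNormal M).toRingEquiv ?_ σ.toRingEquiv ?_ ?_ hx
    · rw [hfD, Polynomial.map_map]
      congr 1
      ext a
      exact ((σ.restrictScalars F).restrictNormal M).commutes a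
    · change σ Θ = Θ
      rw [hΘ, map_mul, map_natCast, σ.commutes]
    · intro a
      exact hc a
  · intro x hx0 hCx hNx
    obtain ⟨h, rfl⟩ := ex_poly hG hD0 x
    have hcomp : aeval θ (h.comp (C ((Dp J : ℕ) : F) * X)) = aeval ((Dp J : L) * θ) h := by
      rw [aeval_comp, map_mul, aeval_C, aeval_X, map_natCast]
    rw [hΘ, hfD] at hCx
    obtain ⟨k1, k2⟩ := baseX hUP H hA htop h hx0 hNx hCx
    have et : (Dp J : Ω) * algebraMap L Ω θ = algebraMap L Ω ((Dp J : L) * θ) := by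
      rw [map_mul, map_natCast]
    have eH : aeval ((Dp J : Ω) * algebraMap L Ω θ) (h.map (algebraMap F M)) =
        algebraMap L Ω (aeval ((Dp J : L) * θ) h) := by
      rw [et, aeval_up]
    obtain ⟨k3, k4⟩ := hCx _ eH
    have key := hJ (h.comp (C ((Dp J : ℕ) : F) * X))
    rw [hcomp] at key
    refine key hx0 hNx k1 k2 ?_ ?_
    · intro w hw
      obtain ⟨φ⟩ := hA.two.two w hw
      exact twoX H w hw φ h k3
    · intro σ
      obtain ⟨τ, hτ⟩ := hA.two.real σ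
      exact realX H σ τ (RingHom.ext hτ) h (k4 τ)

end

/-- The 2-Selmer group over `M` of the twist is zero. -/
theorem sel (hUP : S_UP) : S_SEL := by
  intro g W F L M _ _ _ _ _ _ _ _ f f₁ θ S J 𝔮 r P hg hG hsq hF hc1 hS hcq hirr hA hJS hJ
  haveI := hA.two.gal
  obtain ⟨n, hM⟩ := hA.two.pow
  have H : DatX g W f f₁ θ S J 𝔮 r P := ⟨hg, hG, hsq, hF, hS, hc1, hcq, hJS⟩
  have hD0 : Dp J ≠ 0 := by
    rw [Dp, Finset.prod_ne_zero_iff]
    exact fun q hq => (H.goodS q (H.sub hq)).1.ne_zero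
  have hD0F : ((Dp J : ℕ) : F) ≠ 0 := Nat.cast_ne_zero.2 hD0
  obtain ⟨fD, hfD⟩ : ∃ fD : M[X], fD = (fF (f.scaleRoots ((Dp J : ℕ) : 𝓞 F))).map (algebraMap F M) :=
    ⟨_, rfl⟩
  have hmF : (fF (f.scaleRoots ((Dp J : ℕ) : 𝓞 F))).Monic :=
    ((monic_scaleRoots_iff ((Dp J : ℕ) : 𝓞 F)).2 hG.mon).map _
  have hdF : (fF (f.scaleRoots ((Dp J : ℕ) : 𝓞 F))).natDegree = 2 * g + 1 := by
    rw [fF, ((monic_scaleRoots_iff ((Dp J : ℕ) : 𝓞 F)).2 hG.mon).natDegree_map,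
      natDegree_scaleRoots, hG.deg]
  have hirrD : Irreducible fD := by
    rw [hfD]
    refine irr_M hM ?_ hmF (by rw [hdF]; exact ⟨g, rfl⟩)
    rw [Pool.Agent.N170.PF.fF_scale hG.mon]
    exact Pool.Agent.N170.PF.irr_scale hD0F hirr
  rw [← hfD]
  refine ⟨hirrD, ?_⟩
  obtain ⟨Ω, _, _, Θ, hroot, hmin, hsur, hrk, hfd, hnorm⟩ := exists_field hirrD
  haveI : NumberField Ω := NumberField.of_module_finite M Ω
  letI : Algebra F Ω := ((algebraMap M Ω).comp (algebraMap F M)).toAlgebra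
  haveI : IsScalarTower F M Ω := IsScalarTower.of_algebraMap_eq fun _ => rfl
  have hDΩ : ((Dp J : ℕ) : Ω) ≠ 0 := Nat.cast_ne_zero.2 hD0
  have ht : aeval (((Dp J : ℕ) : Ω)⁻¹ * Θ) (fF f) = 0 := by
    have e1 := scaleRoots_eval₂_mul (p := fF f) (algebraMap F Ω) (((Dp J : ℕ) : Ω)⁻¹ * Θ)
      ((Dp J : ℕ) : F)
    have e2 : eval₂ (algebraMap F Ω) ((algebraMap F Ω) ((Dp J : ℕ) : F) *
        (((Dp J : ℕ) : Ω)⁻¹ * Θ)) ((fF f).scaleRoots ((Dp J : ℕ) : F)) = 0 := by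
      rw [map_natCast, mul_inv_cancel_left₀ hDΩ, ← aeval_def, ← Pool.Agent.N170.PF.fF_scale hG.mon,
        ← aeval_map_algebraMap M, ← hfD]
      exact hroot
    rw [e2] at e1
    rw [aeval_def]
    refine (mul_eq_zero.1 e1.symm).resolve_left (pow_ne_zero _ ?_)
    rw [map_natCast]
    exact hDΩ
  obtain ⟨ψ, hψ⟩ := lift_gen hG hirr ht
  letI : Algebra L Ω := ψ.toRingHom.toAlgebra
  haveI : IsScalarTower F L Ω := IsScalarTower.of_algebraMap_eq fun x => (ψ.commutes x).symm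
  have hθ : algebraMap L Ω θ = ((Dp J : ℕ) : Ω)⁻¹ * Θ := hψ
  have hΘ : Θ = ((Dp J : ℕ) : Ω) * algebraMap L Ω θ := by
    rw [hθ, mul_inv_cancel_left₀ hDΩ]
  have htop : M⟮algebraMap L Ω θ⟯ = ⊤ := by
    rw [eq_top_iff]
    intro x _
    obtain ⟨q, rfl⟩ := hsur x
    have h1 : Θ ∈ M⟮algebraMap L Ω θ⟯ := by
      rw [hΘ]
      exact mul_mem (natCast_mem _ _) (IntermediateField.mem_adjoin_simple_self M _)
    rw [aeval_eq_sum_range]
    exact sum_mem fun i _ => IntermediateField.smul_mem _ (pow_mem h1 i)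
  intro h hcop hN hloc hreal
  have hne : aeval Θ h ≠ 0 := by
    intro h0
    obtain ⟨u, v, huv⟩ := hcop
    have := congrArg (aeval Θ) huv
    rw [map_add, map_mul, map_mul, hroot, h0, mul_zero, mul_zero, add_zero, map_one] at this
    exact zero_ne_one this
  have hCC : CC M fD Θ (aeval Θ h) := by
    intro h' hh'
    have h1 : fD ∣ h' - h := hmin _ (by rw [map_sub, hh', sub_self])
    refine ⟨fun w => ?_, fun τ => ?_⟩
    · have h3 := Polynomial.map_dvd (algebraMap M (w.adicCompletion M)) h1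
      rw [Polynomial.map_sub] at h3
      exact locIm_cg (hloc w) h3
    · have h3 := Polynomial.map_dvd τ h1
      rw [Polynomial.map_sub] at h3
      exact locIm_cg (hreal τ) h3
  obtain ⟨y, hy⟩ := descX hUP H hA htop hM
    (by rw [hrk, hG.rank, hfD, hmF.natDegree_map, hdF]) hJ fD hfD Θ hΘ hmin hsur _ hne hCC
    (by rw [hnorm]; exact hN)
  obtain ⟨s, rfl⟩ := hsur y
  refine ⟨s, hmin _ ?_⟩
  rw [map_sub, map_pow, hy, pow_two, sub_self]

end Pool.Agent.L0h51.UT
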